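import Pool.Agent.H23.MdPlus

set_option autoImplicit false

open Pool.Agent.H23.Md

namespace Pool.Agent.Results.MP_db38ce_nt.FourUp

lemma pack {n : ℕ} (hn : 3 ≤ n) (a b : ℕ → ℕ) (hb : ∀ i < n, b i = a i + 1) (h1 : ∀ i, 1 < a i)
    (h2 : ∀ i, 0 < b i) (la : LA n a) (lb : LA n b) (da : MulDep (fun i : Fin n => (a i : ℤ)))
    (db : MulDep (fun i : Fin n => (b i : ℤ))) :
    Function.Injective (fun i : Fin n => (a i : ℤ)) ∧ (∀ i : Fin n, 1 < (a i : ℤ)) ∧
      FullDep (fun i : Fin n => (a i : ℤ)) ∧ FullDep (fun i : Fin n => (a i : ℤ) + 1) := by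
  have p1 : ∀ i, 0 < a i := fun i => by have := h1 i; omega
  refine ⟨inj_of hn a p1 la, fun i => by exact_mod_cast h1 i, full_of a p1 la da, ?_⟩
  have : (fun i : Fin n => (a i : ℤ) + 1) = fun i : Fin n => (b i : ℤ) := by
    funext i; rw [hb i i.2]; push_cast; rfl
  rw [this]
  exact full_of b h2 lb db

lemma Q_gt (x y w : ℕ) (hx : 1 < x) (hy : 1 < y) (hw : 1 < w) (i : ℕ) : 1 < Q x y w i := by
  unfold Q
  have : 1 < w * w := by nlinarith
  split_ifs <;> nlinarith

lemma cp (a b x y : ℕ) (h : x * a = y * b + 1) : Nat.Coprime a b := by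
  have h1 : Nat.gcd a b ∣ y * b + 1 := h ▸ (Nat.gcd_dvd_left a b).mul_left x
  exact Nat.eq_one_of_dvd_one
    ((Nat.dvd_add_right ((Nat.gcd_dvd_right a b).mul_left y)).1 h1)

theorem result (n : ℕ) (hn : 4 ≤ n) :
    {a : Fin n → ℤ | Function.Injective a ∧ (∀ i, 1 < a i) ∧ FullDep a ∧
      FullDep (fun i => a i + 1)}.Infinite := by
  rcases hn.eq_or_lt with rfl | h5
  · refine Set.infinite_of_injective_forall_mem
      (f := fun m : ℕ => fun i : Fin 4 => (Q (6 * m + 7) (2 * (6 * m + 7)) (24 * m + 31) i : ℤ))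
      (fun m m' h => ?_) (fun m => ?_)
    · have := congrFun h 0
      simp [Q] at this
      exact this
    · refine pack (by omega) _ (Q (6 * m + 8) (12 * m + 15) (24 * m + 29)) (fun i hi => ?_)
        (Q_gt _ _ _ (by omega) (by omega) (by omega))
        (fun i => (Nat.zero_lt_one.trans (Q_gt _ _ _ (by omega) (by omega) (by omega) i)))
        (LA_Q1 _ _ (by omega) (by omega) (cp _ _ (3 * m + 4) 1 (by ring))
          (cp _ _ (12 * m + 16) 1 (by ring)) (cp _ _ (8 * m + 9) (2 * m + 2) (by ring)))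
        (LA_Q2 _ _ _ (by omega) (by omega) (by omega) (cp _ _ 2 1 (by ring))
          (cp _ _ (8 * m + 11) (2 * m + 3) (by ring)) (cp _ _ 2 1 (by ring)))
        (dep_Q _ _ _ (by omega) (by omega) (by omega))
        (dep_Q _ _ _ (by omega) (by omega) (by omega))
      interval_cases i <;> simp [Q] <;> ring
  · obtain ⟨j, rfl⟩ : ∃ j, n = j + 5 := ⟨n - 5, by omega⟩
    refine Set.infinite_of_injective_forall_mem
      (f := fun m : ℕ => fun i : Fin (j + 5) => (A (2 * m + 3) j i : ℤ))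
      (fun m m' h => ?_) (fun m => ?_)
    · have := congrFun h 0
      simp [A0, z] at this
      exact this
    · exact pack (by omega) _ (fun i => A (2 * m + 3) j i + 1) (fun i _ => rfl)
        (A_gt (by omega) j) (fun i => by omega) (LA_a (by omega) ⟨m + 1, by ring⟩ j)
        (LA_b (by omega) j) (dep_a (by omega) j) (dep_b _ j)

end Pool.Agent.Results.MP_db38ce_nt.FourUp
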